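import Pool.Agent.N810.MU.ImQ

/-!
# Abelian extensions of imaginary quadratic fields: the conjecture on `μ` is a statement about real
# fields

Let `k` be an imaginary quadratic field, `p` a prime and `K / k` finite abelian. The conjecture
`μ = 0` for `K` says that the degrees of the unramified elementary abelian `p`-extensions of the
layers `K ℚ_m` of the cyclotomic `ℤ_p`-extension of `K` are bounded (this is the finiteness of
`X / p`, up to the bounded influence of the boundedly many primes above `p`). This is `MuZero p K`.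

We show, for all `p` and without condition on the degree of `K`:

* If `K` is Galois over `ℚ`, then `μ = 0` for `K` if and only if `μ = 0` for the real field `K ∩ ℝ`
  (which is in general not Galois over `ℚ`; for a ring class field it is a field `ℚ(j)`) and for the
  largest subfield of `K` which is abelian over `ℚ`. By the theorem of Ferrero and Washington the
  latter condition is satisfied.
* `μ = 0` for all finite abelian extensions of `k` if and only if `μ = 0` for all the real fields
  `K ∩ ℝ`, where `K / k` is finite abelian and `K / ℚ` is Galois, and for all finite abelian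
  extensions of `ℚ`.
-/

set_option autoImplicit false

open Module

open scoped Pointwise

namespace Pool.Agent.Results.MP_b78433_nt.RealSubfields

/-- the algebraic numbers -/
abbrev Qbar := AlgebraicClosure ℚ

/-- `σ` belongs to the inertia group of the valuation ring `A` -/
def Inertia (A : ValuationSubring Qbar) (σ : Gal(Qbar/ℚ)) : Prop :=
  σ • A = A ∧ ∀ x ∈ A, σ x - x ∈ A.nonunits

/-- The extension `M` of `E` is Galois with abelian Galois group of exponent `p` (or `1`). -/
def ElementaryAbelian (p : ℕ) (E M : IntermediateField ℚ Qbar) : Prop :=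
  E ≤ M ∧ (∀ σ ∈ E.fixingSubgroup, ∀ x ∈ M, σ x ∈ M) ∧
    (∀ σ ∈ E.fixingSubgroup, ∀ τ ∈ E.fixingSubgroup, ∀ x ∈ M, σ (τ x) = τ (σ x)) ∧
    ∀ σ ∈ E.fixingSubgroup, ∀ x ∈ M, (σ ^ p) x = x

/-- `M / E` is unramified (at all finite primes): the elements of `Gal(ℚ̄/E)` in the inertia group of
any place act trivially on `M`. -/
def Unramified (E M : IntermediateField ℚ Qbar) : Prop :=
  ∀ A : ValuationSubring Qbar, ∀ σ ∈ E.fixingSubgroup, Inertia A σ → ∀ x ∈ M, σ x = x

/-- `ℚ(μ_{p^∞})` -/
noncomputable def Cyc (p : ℕ) : IntermediateField ℚ Qbar :=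
  IntermediateField.adjoin ℚ {z | ∃ k : ℕ, z ^ (p ^ k) = 1}

/-- `E` is one of the layers `ℚ = ℚ_0 ⊂ ℚ_1 ⊂ ...` of the cyclotomic `ℤ_p`-extension of `ℚ`: a real
subfield of `ℚ(μ_{p^∞})` whose degree is a power of `p` -/
def Layer (p : ℕ) (E : IntermediateField ℚ Qbar) : Prop :=
  E ≤ Cyc p ∧ (∃ m : ℕ, finrank ℚ E = p ^ m) ∧ Nonempty (E →+* ℝ)

/-- `μ = 0` for the field `F` and the prime `p`: the degrees over `F ℚ_m` of its unramified elementary
abelian `p`-extensions are bounded, uniformly in `m`. -/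
def MuZero (p : ℕ) (F : IntermediateField ℚ Qbar) : Prop :=
  ∃ C : ℕ, ∀ E, Layer p E → ∀ M : IntermediateField ℚ Qbar, FiniteDimensional ℚ M →
    ElementaryAbelian p (F ⊔ E) M → Unramified (F ⊔ E) M →
    finrank ℚ M ≤ C * finrank ℚ ↥(F ⊔ E)

/-- `K / k` is finite and Galois with abelian Galois group. -/
def AbelianOver (k K : IntermediateField ℚ Qbar) : Prop :=
  FiniteDimensional ℚ K ∧ k ≤ K ∧ (∀ σ ∈ k.fixingSubgroup, ∀ x ∈ K, σ x ∈ K) ∧
    ∀ σ ∈ k.fixingSubgroup, ∀ τ ∈ k.fixingSubgroup, ∀ x ∈ K, σ (τ x) = τ (σ x)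

/-- `c` is the complex conjugation of an embedding of `ℚ̄` in `ℂ`. -/
def ComplexConj (c : Gal(Qbar/ℚ)) : Prop :=
  ∃ ι : Qbar →+* ℂ, ∀ x, ι (c x) = (starRingEnd ℂ) (ι x)

/-- `F` is the subfield of `K` fixed by `c`, that is, `K ∩ ℝ`. -/
def IsFixed (c : Gal(Qbar/ℚ)) (K F : IntermediateField ℚ Qbar) : Prop :=
  ∀ x, x ∈ F ↔ x ∈ K ∧ c x = x

/-- `F` is the largest subfield of `K` which is abelian over `ℚ`. -/
def IsAbelianPart (K F : IntermediateField ℚ Qbar) : Prop :=
  ∀ x, x ∈ F ↔ x ∈ K ∧ ∀ g h : Gal(Qbar/ℚ), g (h x) = h (g x)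

open Pool.Agent.N810.MU Pool.Agent.Q60.MU in
theorem mu_eq {p : ℕ} {F : IntermediateField ℚ Qbar} : MuZero p F ↔ MuZ inertia p F := by
  refine exists_congr fun C => forall_congr' fun E => forall_congr' fun _ => ?_
  constructor
  · intro h M h1 h2 h3 h4 h5 h6
    exact h M h2 ⟨h1, h3, h4, h5⟩ fun A σ hσ hI => h6 A σ hI hσ
  · rintro h M h2 ⟨h1, h3, h4, h5⟩ h6
    exact h M h1 h2 h3 h4 h5 fun A σ hI hσ => h6 A σ hσ hI

/-- **Abelian extensions of an imaginary quadratic field.** Let `p` be a prime number, `k` an imaginary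
quadratic field and `c` a complex conjugation of `ℚ̄`.

* Let `K / k` be finite abelian with `K / ℚ` Galois, let `K₁ = K ∩ ℝ` be the field fixed by `c` and `K₂`
  the largest subfield of `K` which is abelian over `ℚ`. Then `μ = 0` for `K` if and only if `μ = 0` for
  `K₁` and for `K₂`.
* `μ = 0` for all finite abelian extensions of `k` if and only if `μ = 0` for the fields `K ∩ ℝ`, for
  all finite abelian extensions `K / k` with `K / ℚ` Galois, and for all finite abelian extensions of
  `ℚ`. -/
theorem result (p : ℕ) (hp : p.Prime) (k : IntermediateField ℚ Qbar) (hk : finrank ℚ k = 2)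
    (hi : IsEmpty (k →+* ℝ)) (c : Gal(Qbar/ℚ)) (hc : ComplexConj c) :
    (∀ K K₁ K₂ : IntermediateField ℚ Qbar, AbelianOver k K → IsGalois ℚ K → IsFixed c K K₁ →
      IsAbelianPart K K₂ → (MuZero p K ↔ MuZero p K₁ ∧ MuZero p K₂)) ∧
    ((∀ K, AbelianOver k K → MuZero p K) ↔
      (∀ K K₁, AbelianOver k K → IsGalois ℚ K → IsFixed c K K₁ → MuZero p K₁) ∧
      (∀ E, AbelianOver ⊥ E → MuZero p E)) := by
  simp only [mu_eq]
  exact Pool.Agent.N810.MU.ImQ.imq p hp k hk hi c hc

end Pool.Agent.Results.MP_b78433_nt.RealSubfields
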